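import Pool.Agent.Q35.TT.Stm3

set_option autoImplicit false

/-! Project TT (helper35), job CLO (helper238): the condition that a line is special is closed. -/

namespace Pool.Agent.Q238.TT

open MvPolynomial Pool.Agent.Q35.TT

/-- the polynomial with the coefficients `a`, over any ring -/
noncomputable def pr {R : Type} [CommRing R] (a : Fin 5 → R) : Polynomial R :=
  ∑ i : Fin 5, Polynomial.C (a i) * Polynomial.X ^ (i : ℕ)

lemma pr_map {R S : Type} [CommRing R] [CommRing S] (φ : R →+* S) (a : Fin 5 → R) :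
    (pr a).map φ = pr fun i => φ (a i) := by
  unfold pr
  rw [Polynomial.map_sum]
  apply Finset.sum_congr rfl
  intro i _
  rw [Polynomial.map_mul, Polynomial.map_C, Polynomial.map_pow, Polynomial.map_X]

lemma pr_natDegree {R : Type} [CommRing R] (a : Fin 5 → R) : (pr a).natDegree ≤ 4 := by
  unfold pr
  apply Polynomial.natDegree_sum_le_of_forall_le
  intro i _
  refine (Polynomial.natDegree_C_mul_X_pow_le _ _).trans ?_
  have := i.2
  omega

lemma pr_coeff {R : Type} [CommRing R] (a : Fin 5 → R) (j : Fin 5) : (pr a).coeff (j : ℕ) = a j := by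
  unfold pr
  rw [Polynomial.finsetSum_coeff, Finset.sum_eq_single j]
  · simp
  · intro b _ hb
    rw [Polynomial.coeff_C_mul, Polynomial.coeff_X_pow, if_neg, mul_zero]
    intro h
    exact hb (Fin.ext h.symm)
  · intro h
    exact absurd (Finset.mem_univ _) h

lemma pr_eq {K : Type} [Field K] (q : Polynomial K) (hq : q.natDegree ≤ 4) :
    pr (fun j : Fin 5 => q.coeff (j : ℕ)) = q := by
  ext k
  by_cases hk : k < 5
  · exact pr_coeff _ ⟨k, hk⟩
  · rw [Polynomial.coeff_eq_zero_of_natDegree_lt (lt_of_le_of_lt (pr_natDegree _) (by omega)),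
      Polynomial.coeff_eq_zero_of_natDegree_lt (by omega)]

/-- the matrix of the coefficients of `h²` and `g X^j` -/
noncomputable def AM {R : Type} [CommRing R] (g h : Fin 5 → R) : Matrix (Fin 9) (Option (Fin 5)) R :=
  fun k o => o.elim ((pr h ^ 2).coeff (k : ℕ)) fun j => (pr g * Polynomial.X ^ (j : ℕ)).coeff (k : ℕ)

lemma AM_map {R S : Type} [CommRing R] [CommRing S] (φ : R →+* S) (g h : Fin 5 → R) :
    (AM g h).map φ = AM (fun i => φ (g i)) fun i => φ (h i) := by
  ext k o
  rcases o with _ | j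
  · simp only [Matrix.map_apply, AM, Option.elim]
    rw [← pr_map, ← Polynomial.map_pow, Polynomial.coeff_map]
  · simp only [Matrix.map_apply, AM, Option.elim]
    rw [← pr_map, ← Polynomial.map_X (f := φ), ← Polynomial.map_pow, ← Polynomial.map_mul, Polynomial.coeff_map]

lemma AM_mulVec {K : Type} [Field K] (g h : Fin 5 → K) (c : Option (Fin 5) → K) (k : Fin 9) :
    (AM g h).mulVec c k = (Polynomial.C (c none) * pr h ^ 2 + pr g * pr fun j => c (some j)).coeff (k : ℕ) := by
  unfold Matrix.mulVec dotProduct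
  rw [Fintype.sum_option, Polynomial.coeff_add, Polynomial.coeff_C_mul]
  congr 1
  · simp only [AM, Option.elim]
    ring
  · have hpr : (pr fun j => c (some j)) =
      ∑ j : Fin 5, Polynomial.C (c (some j)) * Polynomial.X ^ (j : ℕ) := rfl
    rw [hpr, Finset.mul_sum, Polynomial.finsetSum_coeff]
    apply Finset.sum_congr rfl
    intro j _
    simp only [AM, Option.elim]
    rw [mul_left_comm, Polynomial.coeff_C_mul]
    ring

lemma pq_eq_pr {K : Type} [Field K] (a : Fin 5 → K) : pq a = pr a := rfl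

/-- special lines give singular matrices -/
lemma not_ND_sing {K : Type} [Field K] (g h : Fin 5 → K) (H : ¬ ND g h) :
    ∃ c : Option (Fin 5) → K, c ≠ 0 ∧ (AM g h).mulVec c = 0 := by
  unfold ND at H
  push Not at H
  obtain ⟨⟨q0, hq0⟩, hdeg⟩ := H
  rw [pq_eq_pr, pq_eq_pr] at hq0 hdeg
  obtain ⟨q, hq, hq4⟩ : ∃ q : Polynomial K, pr h ^ 2 = pr g * q ∧ q.natDegree ≤ 4 := by
    by_cases h0 : pr h = 0
    · exact ⟨0, by rw [h0]; simp, by simp⟩
    · refine ⟨q0, hq0, ?_⟩
      have h1 : pr h ^ 2 ≠ 0 := pow_ne_zero 2 h0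
      rw [hq0] at h1
      have hg0 : pr g ≠ 0 := left_ne_zero_of_mul h1
      have hq0' : q0 ≠ 0 := right_ne_zero_of_mul h1
      have h2 := congrArg Polynomial.natDegree hq0
      rw [Polynomial.natDegree_pow, Polynomial.natDegree_mul hg0 hq0'] at h2
      omega
  refine ⟨fun o => o.elim (-1) fun j => q.coeff (j : ℕ), ?_, ?_⟩
  · intro h0
    have := congrFun h0 none
    simp at this
  · ext k
    rw [AM_mulVec]
    simp only [Option.elim]
    rw [pr_eq q hq4, ← hq]
    simp

/-- singular matrices give special lines -/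
lemma sing_not_ND {K : Type} [Field K] (g h : Fin 5 → K) (hg : pr g ≠ 0) (c : Option (Fin 5) → K) (hc : c ≠ 0)
    (hA : (AM g h).mulVec c = 0) : ¬ ND g h := by
  have hz : Polynomial.C (c none) * pr h ^ 2 + pr g * (pr fun j => c (some j)) = 0 := by
    ext k
    rw [Polynomial.coeff_zero]
    by_cases hk : k < 9
    · have := congrFun hA ⟨k, hk⟩
      rw [AM_mulVec] at this
      exact this
    · apply Polynomial.coeff_eq_zero_of_natDegree_lt
      apply lt_of_le_of_lt (Polynomial.natDegree_add_le _ _)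
      apply max_lt
      · refine lt_of_le_of_lt (Polynomial.natDegree_C_mul_le _ _) ?_
        refine lt_of_le_of_lt Polynomial.natDegree_pow_le ?_
        have := pr_natDegree h
        omega
      · refine lt_of_le_of_lt Polynomial.natDegree_mul_le ?_
        have := pr_natDegree g
        have := pr_natDegree fun j => c (some j)
        omega
  have hcn : c none ≠ 0 := by
    intro h0
    rw [h0, Polynomial.C_0, zero_mul, zero_add] at hz
    have h1 := (mul_eq_zero.mp hz).resolve_left hg
    apply hc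
    ext o
    rcases o with _ | j
    · exact h0
    · have := pr_coeff (fun j => c (some j)) j
      rw [h1, Polynomial.coeff_zero] at this
      exact this.symm
  obtain ⟨q, hq, hq4⟩ : ∃ q : Polynomial K, pr h ^ 2 = pr g * q ∧ q.natDegree ≤ 4 := by
    refine ⟨Polynomial.C (-(c none)⁻¹) * pr fun j => c (some j), ?_,
      (Polynomial.natDegree_C_mul_le _ _).trans (pr_natDegree _)⟩
    have h1 : pr g * (pr fun j => c (some j)) = -(Polynomial.C (c none) * pr h ^ 2) := by
      rw [eq_neg_iff_add_eq_zero, add_comm]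
      exact hz
    rw [mul_left_comm, h1, mul_neg, ← neg_mul, ← mul_assoc, ← Polynomial.C_neg, neg_neg, ← Polynomial.C_mul,
      inv_mul_cancel₀ hcn, Polynomial.C_1, one_mul]
  unfold ND
  push Not
  rw [pq_eq_pr, pq_eq_pr]
  refine ⟨⟨q, hq⟩, ?_⟩
  by_cases h0 : pr h = 0
  · rw [h0]
    simp
  · have h1 : pr h ^ 2 ≠ 0 := pow_ne_zero 2 h0
    rw [hq] at h1
    have hq0' : q ≠ 0 := right_ne_zero_of_mul h1
    have h2 := congrArg Polynomial.natDegree hq
    rw [Polynomial.natDegree_pow, Polynomial.natDegree_mul hg hq0'] at h2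
    omega

/-- the coefficients as polynomials -/
noncomputable def lp {K : Type} [Field K] {n : ℕ} (f : MvPolynomial (Fin n) K) (i : Fin n) (k : Fin 5) :
    MvPolynomial (Fin n) K :=
  ∑ m ∈ f.support with m i = (k : ℕ), C (f.coeff m) * ∏ j ∈ Finset.univ.erase i, X j ^ m j

lemma eval_lp {K : Type} [Field K] {n : ℕ} (f : MvPolynomial (Fin n) K) (i : Fin n) (k : Fin 5) (y : Fin n → K) :
    eval y (lp f i k) = lc f (af y) i k := by
  unfold lp lc mo af
  rw [map_sum]
  apply Finset.sum_congr rfl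
  intro m _
  rw [map_mul, eval_C, map_prod]
  congr 1
  apply Finset.prod_congr rfl
  intro j _
  rw [map_pow, eval_X]
  simp

lemma lc_eval {K : Type} [Field K] {n : ℕ} (f : MvPolynomial (Fin n) K) (hf : ∀ j, f.degreeOf j ≤ 4) (i : Fin n)
    (y : Fin n → K) : (pr (lc f (af y) i)).eval (y i) = eval y f := by
  unfold pr
  rw [Polynomial.eval_finsetSum]
  have h1 : ∀ k : Fin 5, Polynomial.eval (y i) (Polynomial.C (lc f (af y) i k) * Polynomial.X ^ (k : ℕ)) =
      ∑ m ∈ f.support, if m i = (k : ℕ) then f.coeff m * ∏ j, y j ^ m j else 0 := by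
    intro k
    rw [Polynomial.eval_mul, Polynomial.eval_C, Polynomial.eval_pow, Polynomial.eval_X, lc, Finset.sum_mul,
      Finset.sum_filter]
    apply Finset.sum_congr rfl
    intro m _
    split_ifs with h
    · rw [← Finset.mul_prod_erase Finset.univ (fun j => y j ^ m j) (Finset.mem_univ i), ← h]
      have : mo m (af y) i = ∏ j ∈ Finset.univ.erase i, y j ^ m j := by
        unfold mo af
        apply Finset.prod_congr rfl
        intro j _
        simp
      rw [this]
      ring
    · rfl
  rw [Finset.sum_congr rfl fun k _ => h1 k, Finset.sum_comm, eval_eq']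
  apply Finset.sum_congr rfl
  intro m hm
  have h2 : m i ≤ 4 := (monomial_le_degreeOf i hm).trans (hf i)
  rw [Finset.sum_eq_single (⟨m i, by omega⟩ : Fin 5)]
  · rw [if_pos rfl]
  · intro b _ hb
    rw [if_neg]
    intro h
    exact hb (Fin.ext h.symm)
  · intro h
    exact absurd (Finset.mem_univ _) h

/-- a left inverse -/
lemma left_inv {K : Type} [Field K] (A : Matrix (Fin 9) (Option (Fin 5)) K)
    (hA : ∀ c, A.mulVec c = 0 → c = 0) : ∃ B : Matrix (Option (Fin 5)) (Fin 9) K, B * A = 1 := by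
  have hinj : Function.Injective (Matrix.toLin' A) := by
    rw [injective_iff_map_eq_zero]
    intro c hc
    exact hA c hc
  obtain ⟨G, hG⟩ := LinearMap.exists_leftInverse_of_injective (Matrix.toLin' A) (LinearMap.ker_eq_bot.mpr hinj)
  refine ⟨LinearMap.toMatrix' G, ?_⟩
  have h1 : LinearMap.toMatrix' (G.comp (Matrix.toLin' A)) = LinearMap.toMatrix' G * A := by
    rw [LinearMap.toMatrix'_comp, LinearMap.toMatrix'_toLin']
  rw [← h1, hG, LinearMap.toMatrix'_id]

theorem clo : S_CLO := by
  intro K _ _ n f h hf hh J z i D hD hsp y₀ hy₀ hfy₀ hND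
  have hsp' : ∀ c, (AM (lc f (af y₀) i) (lc h (af y₀) i)).mulVec c = 0 → c = 0 := by
    intro c hc
    by_contra hc0
    refine sing_not_ND _ _ ?_ c hc0 hc hND
    intro h0
    apply hfy₀
    rw [← lc_eval f hf i y₀, h0, Polynomial.eval_zero]
  obtain ⟨B, hB⟩ := left_inv _ hsp'
  obtain ⟨P, hP⟩ : ∃ P : MvPolynomial (Fin n) K, ∀ y, eval y P = (B * AM (lc f (af y) i) (lc h (af y) i)).det := by
    obtain ⟨BP, hBP⟩ : ∃ BP : Matrix (Option (Fin 5)) (Fin 9) (MvPolynomial (Fin n) K), ∀ y, BP.map (eval y) = B :=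
      ⟨Matrix.of fun a b => C (B a b), fun y => by
        ext a b
        rw [Matrix.map_apply, Matrix.of_apply, eval_C]⟩
    refine ⟨Matrix.det (BP * AM (lp f i) (lp h i) : Matrix (Option (Fin 5)) (Option (Fin 5)) (MvPolynomial (Fin n) K)),
      fun y => ?_⟩
    rw [RingHom.map_det, RingHom.mapMatrix_apply, Matrix.map_mul, AM_map, hBP]
    have e1 : (fun k => eval y (lp f i k)) = lc f (af y) i := by
      ext k
      exact eval_lp f i k y
    have e2 : (fun k => eval y (lp h i k)) = lc h (af y) i := by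
      ext k
      exact eval_lp h i k y
    rw [e1, e2]
  obtain ⟨y, hyD, hy, hyP⟩ := hD P ⟨y₀, hy₀, by rw [hP, hB, Matrix.det_one]; exact one_ne_zero⟩
  obtain ⟨c, hc0, hc⟩ := not_ND_sing _ _ (hsp y hyD hy)
  apply hyP
  rw [hP, ← Matrix.exists_mulVec_eq_zero_iff]
  refine ⟨c, hc0, ?_⟩
  rw [← Matrix.mulVec_mulVec, hc, Matrix.mulVec_zero]

end Pool.Agent.Q238.TT
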